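import Mathlib

/-!
# Constant-round adaptive channel simulation with one ancilla qubit is impossible

For every `r` there is a channel on `ℂ^d`, `d = 2^r + r`, such that every protocol with one ancilla
qubit and at most `R` rounds that simulates it has success probability at most `4 * 8^R / √r`.

The channel is the Schur multiplier `X ↦ (⟨u_b, u_b'⟩ X_{b b'})` by the Gram matrix of the
`2^r` vectors `(±1, …, ±1) / √r` and the `r` coordinate vectors of `ℝ^r`.
Each operator in its Kraus space is diagonal with the entries `⟨u_b, v⟩`, `v ∈ ℂ^r`. If it is not zero it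
has rank at least `2^(r-1) ≥ d / 4`, so that each projective measurement on `ℂ^d ⊗ ℂ^2` has at most
`8` outcomes that can occur in a successful run, and there are at most `8^R` successful runs. And the
normalised square of the Hilbert-Schmidt norm of such an operator is at most `2 / √r` times the square
of its operator norm, so that each successful run contributes at most `4 / √r`.
-/

set_option autoImplicit false

open MeasureTheory Matrix
open scoped ComplexOrder

namespace Pool.Agent.Results.MP_796113_mp.NoConstantRounds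

section definitions

variable {ι : Type} [Fintype ι] [DecidableEq ι]

/-- A projective measurement with `n` outcomes: orthogonal projections `P i`, pairwise orthogonal,
with sum `1`. -/
structure IsMeasurement {κ : Type} [Fintype κ] [DecidableEq κ] {n : ℕ}
    (P : Fin n → Matrix κ κ ℂ) : Prop where
  herm : ∀ i, (P i)ᴴ = P i
  idem : ∀ i, P i * P i = P i
  orth : ∀ i j, i ≠ j → P i * P j = 0
  sum_eq : ∑ i, P i = 1

/-- Adaptive protocols (for fixed values of the random choices) on the system `ℂ^ι` together with one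
ancilla qubit; `ι × Fin 2` is the index set of the standard basis of `ℂ^ι ⊗ ℂ^2`. A protocol
* stops and declares success (`done true`) or failure (`done false`), or
* applies a unitary operation and goes on with a protocol, or
* makes a projective measurement with any finite number of outcomes and goes on with a protocol which
  depends on the outcome. -/
inductive Protocol (ι : Type) [Fintype ι] [DecidableEq ι] : Type
  | done (success : Bool) : Protocol ι
  | unitary (U : Matrix (ι × Fin 2) (ι × Fin 2) ℂ) (hU : Uᴴ * U = 1) (next : Protocol ι) :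
      Protocol ι
  | measure (n : ℕ) (P : Fin n → Matrix (ι × Fin 2) (ι × Fin 2) ℂ) (hP : IsMeasurement P)
      (next : Fin n → Protocol ι) : Protocol ι

/-- The largest number of measurements on any run. -/
def Protocol.rounds : Protocol ι → ℕ
  | .done _ => 0
  | .unitary _ _ p => p.rounds
  | .measure _ _ _ p => 1 + Finset.univ.sup (fun i => (p i).rounds)

/-- The unnormalised state of system and ancilla at the end of the successful runs, when the protocol is
started in the state `σ`: the sum over all successful runs of their probability times their final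
state. -/
noncomputable def Protocol.run : Protocol ι → Matrix (ι × Fin 2) (ι × Fin 2) ℂ →
    Matrix (ι × Fin 2) (ι × Fin 2) ℂ
  | .done true, σ => σ
  | .done false, _ => 0
  | .unitary U _ p, σ => p.run (U * σ * Uᴴ)
  | .measure _ P _ p, σ => ∑ i, (p i).run (P i * σ * P i)

/-- The state `ρ` of the system together with the ancilla in the state `|0⟩`. -/
def withAncilla (ρ : Matrix ι ι ℂ) : Matrix (ι × Fin 2) (ι × Fin 2) ℂ :=
  Matrix.of fun x y => if x.2 = 0 ∧ y.2 = 0 then ρ x.1 y.1 else 0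

/-- Discarding the ancilla (tracing it out). -/
def discard (σ : Matrix (ι × Fin 2) (ι × Fin 2) ℂ) : Matrix ι ι ℂ :=
  Matrix.of fun i j => ∑ a : Fin 2, σ (i, a) (j, a)

/-- The unnormalised output of the protocol on the input `ρ`, in the event of success. Its trace is the
probability of success. -/
noncomputable def Protocol.output (p : Protocol ι) (ρ : Matrix ι ι ℂ) : Matrix ι ι ℂ :=
  discard (p.run (withAncilla ρ))

/-- Density matrices. -/
def IsState (ρ : Matrix ι ι ℂ) : Prop := ρ.PosSemidef ∧ ρ.trace = 1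

/-- Channels: completely positive trace-preserving linear maps. -/
structure IsChannel (Φ : Matrix ι ι ℂ →ₗ[ℂ] Matrix ι ι ℂ) : Prop where
  trace_preserving : ∀ X, (Φ X).trace = X.trace
  completely_positive : ∀ (k : ℕ) (X : Matrix (Fin k × ι) (Fin k × ι) ℂ), X.PosSemidef →
    (Matrix.of fun x y : Fin k × ι =>
      Φ (Matrix.of fun i j => X (x.1, i) (y.1, j)) x.2 y.2).PosSemidef

/-- The protocols `p ω`, with `ω` chosen at random according to the probability measure `μ`, simulate
`Φ` with success probability `q`: for every input state success occurs with probability `q`, and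
conditioned on success the output state is `Φ ρ`. (All random choices are made at the beginning.) -/
structure Simulates {Ω : Type*} [MeasurableSpace Ω] (μ : Measure Ω) (p : Ω → Protocol ι)
    (Φ : Matrix ι ι ℂ →ₗ[ℂ] Matrix ι ι ℂ) (q : ℝ) : Prop where
  pos : 0 < q
  integrable : ∀ ρ, IsState ρ → ∀ i j, Integrable (fun ω => (p ω).output ρ i j) μ
  prob : ∀ ρ, IsState ρ → ∫ ω, ((p ω).output ρ).trace ∂μ = q
  state : ∀ ρ, IsState ρ → ∀ i j, (∫ ω, (p ω).output ρ i j ∂μ) / q = Φ ρ i j

end definitions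

section operators

variable {ι : Type} [Fintype ι] [DecidableEq ι]

/-- The operators of the successful runs. -/
noncomputable def ops : Protocol ι → List (Matrix (ι × Fin 2) (ι × Fin 2) ℂ)
  | .done true => [1]
  | .done false => []
  | .unitary U _ p => (ops p).map (fun T => T * U)
  | .measure n P _ p => (List.finRange n).flatMap (fun i => (ops (p i)).map (fun T => T * P i))

lemma run_eq (p : Protocol ι) : ∀ σ, p.run σ = ((ops p).map (fun T => T * σ * Tᴴ)).sum := by
  induction p with
  | done b =>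
    intro σ
    cases b <;> simp [Protocol.run, ops]
  | unitary U hU p ih =>
    intro σ
    rw [Protocol.run, ih, ops, List.map_map]
    congr 1
    apply List.map_congr_left
    intro T _
    simp [Matrix.conjTranspose_mul, Matrix.mul_assoc]
  | measure n P hP p ih =>
    intro σ
    rw [Protocol.run, ops, List.map_flatMap, List.flatMap_def, List.sum_flatten, List.map_map,
      ← List.sum_ofFn, List.ofFn_eq_map]
    congr 1
    apply List.map_congr_left
    intro i _
    simp only [Function.comp]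
    rw [ih, List.map_map]
    congr 1
    apply List.map_congr_left
    intro T _
    simp only [Function.comp, Matrix.conjTranspose_mul, hP.herm, Matrix.mul_assoc]

/-- `‖T x‖ ≤ ‖x‖` -/
def Contr (T : Matrix (ι × Fin 2) (ι × Fin 2) ℂ) : Prop :=
  ∀ x : ι × Fin 2 → ℂ, ∑ i, ‖(T *ᵥ x) i‖ ^ 2 ≤ ∑ i, ‖x i‖ ^ 2

lemma sum_norm_sq {κ : Type} [Fintype κ] (x : κ → ℂ) :
    ((∑ i, ‖x i‖ ^ 2 : ℝ) : ℂ) = star x ⬝ᵥ x := by
  rw [dotProduct]
  push_cast
  apply Finset.sum_congr rfl
  intro i _
  rw [Pi.star_apply, RCLike.star_def, ← Complex.normSq_eq_conj_mul_self, Complex.normSq_eq_norm_sq]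
  push_cast
  rfl

lemma star_mulVec_dot {κ : Type} [Fintype κ] (A : Matrix κ κ ℂ) (x y : κ → ℂ) :
    star (A *ᵥ x) ⬝ᵥ y = star x ⬝ᵥ (Aᴴ *ᵥ y) := by
  rw [Matrix.star_mulVec, Matrix.dotProduct_mulVec]

lemma contr_ops (p : Protocol ι) : ∀ T ∈ ops p, Contr T := by
  induction p with
  | done b =>
    intro T hT
    cases b
    · simp [ops] at hT
    · simp only [ops, List.mem_singleton] at hT
      subst hT
      intro x
      simp
  | unitary U hU p ih =>
    intro T hT
    simp only [ops, List.mem_map] at hT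
    obtain ⟨T', hT', rfl⟩ := hT
    intro x
    rw [← Matrix.mulVec_mulVec]
    refine (ih T' hT' (U *ᵥ x)).trans (le_of_eq ?_)
    have h : ((∑ i, ‖(U *ᵥ x) i‖ ^ 2 : ℝ) : ℂ) = ((∑ i, ‖x i‖ ^ 2 : ℝ) : ℂ) := by
      rw [sum_norm_sq, sum_norm_sq, star_mulVec_dot, Matrix.mulVec_mulVec, hU, Matrix.one_mulVec]
    exact_mod_cast h
  | measure n P hP p ih =>
    intro T hT
    simp only [ops, List.mem_flatMap, List.mem_map] at hT
    obtain ⟨i, _, T', hT', rfl⟩ := hT
    intro x
    rw [← Matrix.mulVec_mulVec]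
    refine (ih i T' hT' (P i *ᵥ x)).trans ?_
    -- the complement
    have h1 : ((∑ j, ‖(P i *ᵥ x) j‖ ^ 2 : ℝ) : ℂ) = star x ⬝ᵥ (P i *ᵥ x) := by
      rw [sum_norm_sq, star_mulVec_dot, Matrix.mulVec_mulVec, hP.herm, hP.idem]
    have h2 : ((∑ j, ‖(x - P i *ᵥ x) j‖ ^ 2 : ℝ) : ℂ) = star x ⬝ᵥ x - star x ⬝ᵥ (P i *ᵥ x) := by
      rw [sum_norm_sq, star_sub, sub_dotProduct, dotProduct_sub, dotProduct_sub, star_mulVec_dot,
        star_mulVec_dot, Matrix.mulVec_mulVec, hP.herm, hP.idem]
      ring
    have h3 : ((∑ j, ‖(x - P i *ᵥ x) j‖ ^ 2 : ℝ) : ℂ) =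
        ((∑ j, ‖x j‖ ^ 2 - ∑ j, ‖(P i *ᵥ x) j‖ ^ 2 : ℝ) : ℂ) := by
      rw [h2, Complex.ofReal_sub, h1, sum_norm_sq]
    have h4 : ∑ j, ‖(x - P i *ᵥ x) j‖ ^ 2 = ∑ j, ‖x j‖ ^ 2 - ∑ j, ‖(P i *ᵥ x) j‖ ^ 2 := by
      exact_mod_cast h3
    have h5 : 0 ≤ ∑ j, ‖(x - P i *ᵥ x) j‖ ^ 2 := by positivity
    linarith

lemma rank_eq_trace {κ : Type} [Fintype κ] [DecidableEq κ] (A : Matrix κ κ ℂ) (h : A * A = A) :
    (A.rank : ℂ) = A.trace := by
  have h1 : IsIdempotentElem (Matrix.toLin' A) := by
    show Matrix.toLin' A * Matrix.toLin' A = Matrix.toLin' A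
    rw [Module.End.mul_eq_comp, ← Matrix.toLin'_mul, h]
  have h2 := (LinearMap.IsIdempotentElem.isProj_range _ h1).trace
  rw [Matrix.trace_toLin'_eq] at h2
  rw [h2]
  rfl

/-- A projective measurement has at most `m` outcomes of rank at least `k`, if the dimension is at
most `m * k`. -/
lemma card_large {κ : Type} [Fintype κ] [DecidableEq κ] {n : ℕ} {P : Fin n → Matrix κ κ ℂ}
    (hP : IsMeasurement P) (k m : ℕ) (hk : 1 ≤ k) (hm : Fintype.card κ ≤ m * k) :
    (Finset.univ.filter (fun i => k ≤ (P i).rank)).card ≤ m := by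
  have h1 : ∑ i, (P i).rank = Fintype.card κ := by
    have : ((∑ i, (P i).rank : ℕ) : ℂ) = (Fintype.card κ : ℂ) := by
      push_cast
      rw [Finset.sum_congr rfl (fun i _ => rank_eq_trace (P i) (hP.idem i)), ← Matrix.trace_sum,
        hP.sum_eq, Matrix.trace_one]
    exact_mod_cast this
  have h2 : (Finset.univ.filter (fun i => k ≤ (P i).rank)).card * k ≤ ∑ i, (P i).rank := by
    calc (Finset.univ.filter (fun i => k ≤ (P i).rank)).card * k
        = ∑ i ∈ Finset.univ.filter (fun i => k ≤ (P i).rank), k := by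
          rw [Finset.sum_const, smul_eq_mul]
      _ ≤ ∑ i ∈ Finset.univ.filter (fun i => k ≤ (P i).rank), (P i).rank :=
          Finset.sum_le_sum (fun i hi => (Finset.mem_filter.1 hi).2)
      _ ≤ ∑ i, (P i).rank := Finset.sum_le_sum_of_subset (Finset.filter_subset _ _)
  have h3 : (Finset.univ.filter (fun i => k ≤ (P i).rank)).card * k ≤ m * k := by omega
  exact Nat.le_of_mul_le_mul_right h3 hk

/-- There are at most `m ^ R` successful runs whose operator has rank at least `k`. -/
lemma count_ops (p : Protocol ι) (k m : ℕ) (hk : 1 ≤ k) (hm : Fintype.card (ι × Fin 2) ≤ m * k)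
    (hm1 : 1 ≤ m) : (ops p).countP (fun T => decide (k ≤ T.rank)) ≤ m ^ p.rounds := by
  induction p with
  | done b =>
    cases b
    · simp [ops]
    · simp only [ops, Protocol.rounds, pow_zero]
      exact List.countP_le_length
  | unitary U hU p ih =>
    rw [ops, List.countP_map, Protocol.rounds]
    refine le_trans (List.countP_mono_left ?_) ih
    intro T _ h
    simp only [Function.comp, decide_eq_true_eq] at h ⊢
    exact h.trans (Matrix.rank_mul_le_left _ _)
  | measure n P hP p ih =>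
    rw [ops, List.countP_flatMap, Protocol.rounds]
    set s := Finset.univ.sup (fun i => (p i).rounds) with hs
    have h1 : ∀ i : Fin n, ((ops (p i)).map (fun T => T * P i)).countP
        (fun T => decide (k ≤ T.rank)) ≤ if k ≤ (P i).rank then m ^ s else 0 := by
      intro i
      rw [List.countP_map]
      split_ifs with h
      · refine le_trans (List.countP_mono_left ?_) ((ih i).trans
          (Nat.pow_le_pow_right hm1 (Finset.le_sup (f := fun i => (p i).rounds) (Finset.mem_univ i))))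
        intro T _ h
        simp only [Function.comp, decide_eq_true_eq] at h ⊢
        exact h.trans (Matrix.rank_mul_le_left _ _)
      · rw [Nat.le_zero, List.countP_eq_zero]
        intro T _
        simp only [Function.comp, decide_eq_true_eq]
        intro h2
        exact h (h2.trans (Matrix.rank_mul_le_right _ _))
    have h2 : (List.map (List.countP (fun T => decide (k ≤ T.rank)) ∘
        fun i => List.map (fun T => T * P i) (ops (p i))) (List.finRange n)).sum =
        ∑ i : Fin n, ((ops (p i)).map (fun T => T * P i)).countP (fun T => decide (k ≤ T.rank)) := by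
      rw [← List.sum_ofFn, List.ofFn_eq_map]
      rfl
    rw [h2]
    calc _ ≤ ∑ i : Fin n, (if k ≤ (P i).rank then m ^ s else 0) :=
          Finset.sum_le_sum (fun i _ => h1 i)
      _ = (Finset.univ.filter (fun i => k ≤ (P i).rank)).card * m ^ s := by
          rw [← Finset.sum_filter, Finset.sum_const, smul_eq_mul]
      _ ≤ m * m ^ s := Nat.mul_le_mul_right _ (card_large hP k m hk hm)
      _ = m ^ (1 + s) := by ring

/-- The component of an operator that maps the system with ancilla `|0⟩` to the system with ancilla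
`|a⟩`. -/
def blk (T : Matrix (ι × Fin 2) (ι × Fin 2) ℂ) (a : Fin 2) : Matrix ι ι ℂ :=
  T.submatrix (fun i => (i, a)) (fun i => (i, 0))

omit [DecidableEq ι] in
lemma discard_conj (T : Matrix (ι × Fin 2) (ι × Fin 2) ℂ) (ρ : Matrix ι ι ℂ) :
    discard (T * withAncilla ρ * Tᴴ) = ∑ a, blk T a * ρ * (blk T a)ᴴ := by
  ext i j
  simp only [discard, Matrix.of_apply, Matrix.sum_apply, Matrix.mul_apply, withAncilla, blk,
    Matrix.submatrix_apply, Matrix.conjTranspose_apply]
  apply Finset.sum_congr rfl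
  intro a _
  rw [Fintype.sum_prod_type]
  apply Finset.sum_congr rfl
  intro x _
  rw [Fin.sum_univ_two]
  simp only [Fintype.sum_prod_type, Fin.sum_univ_two]
  simp

omit [Fintype ι] [DecidableEq ι] in
lemma discard_list_sum (l : List (Matrix (ι × Fin 2) (ι × Fin 2) ℂ)) :
    discard l.sum = (l.map discard).sum := by
  induction l with
  | nil => ext i j; simp [discard]
  | cons A l ih =>
    rw [List.sum_cons, List.map_cons, List.sum_cons, ← ih]
    ext i j
    simp [discard, Finset.sum_add_distrib]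

lemma output_eq (p : Protocol ι) (ρ : Matrix ι ι ℂ) :
    p.output ρ = ((ops p).map (fun T => ∑ a, blk T a * ρ * (blk T a)ᴴ)).sum := by
  rw [Protocol.output, run_eq, discard_list_sum, List.map_map]
  congr 1
  apply List.map_congr_left
  intro T _
  exact discard_conj T ρ

/-- The quadratic form `w* M w`. -/
def quad (w : ι → ℂ) (M : Matrix ι ι ℂ) : ℂ := ∑ i, ∑ j, star (w i) * M i j * w j

omit [DecidableEq ι] in
lemma quad_add (w : ι → ℂ) (M N : Matrix ι ι ℂ) : quad w (M + N) = quad w M + quad w N := by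
  simp only [quad, Matrix.add_apply, mul_add, add_mul, Finset.sum_add_distrib]

omit [DecidableEq ι] in
lemma quad_zero (w : ι → ℂ) : quad w (0 : Matrix ι ι ℂ) = 0 := by
  simp [quad]

omit [DecidableEq ι] in
lemma quad_list (w : ι → ℂ) (l : List (Matrix ι ι ℂ)) : quad w l.sum = (l.map (quad w)).sum := by
  induction l with
  | nil => simp [quad_zero]
  | cons A l ih => rw [List.sum_cons, List.map_cons, List.sum_cons, quad_add, ih]

omit [DecidableEq ι] in
lemma quad_smul (w : ι → ℂ) (s : ℂ) (M : Matrix ι ι ℂ) : quad w (s • M) = s * quad w M := by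
  simp only [quad, Matrix.smul_apply, smul_eq_mul, Finset.mul_sum]
  apply Finset.sum_congr rfl
  intro i _
  apply Finset.sum_congr rfl
  intro j _
  ring

omit [DecidableEq ι] in
lemma quad_rank_one (w x : ι → ℂ) : quad w (vecMulVec x (star x)) = ((‖star w ⬝ᵥ x‖ ^ 2 : ℝ) : ℂ) := by
  have h1 : ((‖star w ⬝ᵥ x‖ ^ 2 : ℝ) : ℂ) = (star w ⬝ᵥ x) * star (star w ⬝ᵥ x) := by
    rw [RCLike.star_def, Complex.mul_conj, Complex.normSq_eq_norm_sq]
  have h2 : star (star w ⬝ᵥ x) = ∑ j, w j * star (x j) := by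
    rw [dotProduct, star_sum]
    apply Finset.sum_congr rfl
    intro j _
    rw [star_mul', Pi.star_apply, star_star]
  rw [h1, h2, dotProduct, Finset.sum_mul_sum, quad]
  apply Finset.sum_congr rfl
  intro i _
  apply Finset.sum_congr rfl
  intro j _
  rw [Matrix.vecMulVec_apply, Pi.star_apply, Pi.star_apply]
  ring

omit [DecidableEq ι] in
lemma quad_conj (w c : ι → ℂ) (s : ℂ) (A : Matrix ι ι ℂ) :
    quad w (A * (s • vecMulVec c (star c)) * Aᴴ) = s * ((‖star w ⬝ᵥ (A *ᵥ c)‖ ^ 2 : ℝ) : ℂ) := by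
  rw [Matrix.mul_smul, Matrix.smul_mul, quad_smul, ← quad_rank_one]
  congr 2
  ext i j
  simp only [Matrix.mul_apply, Matrix.vecMulVec_apply, Matrix.conjTranspose_apply, Matrix.mulVec,
    dotProduct, Pi.star_apply, star_sum, star_mul', Finset.sum_mul, Finset.mul_sum]
  apply Finset.sum_congr rfl
  intro a _
  apply Finset.sum_congr rfl
  intro b _
  ring

lemma ofReal_list_sum (l : List ℝ) : ((l.sum : ℝ) : ℂ) = (l.map (fun x : ℝ => (x : ℂ))).sum := by
  induction l with
  | nil => simp
  | cons a l ih => rw [List.sum_cons, List.map_cons, List.sum_cons, Complex.ofReal_add, ih]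

lemma list_zero {α : Type*} (l : List α) (f : α → ℝ) (h0 : ∀ x, 0 ≤ f x)
    (hs : (l.map f).sum = 0) : ∀ x ∈ l, f x = 0 := by
  induction l with
  | nil => intro x hx; simp at hx
  | cons a l ih =>
    rw [List.map_cons, List.sum_cons] at hs
    have h1 : 0 ≤ (l.map f).sum := List.sum_nonneg (by
      intro y hy
      rw [List.mem_map] at hy
      obtain ⟨x, _, rfl⟩ := hy
      exact h0 x)
    have h2 := h0 a
    intro x hx
    rw [List.mem_cons] at hx
    rcases hx with rfl | hx
    · linarith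
    · exact ih (by linarith) x hx

omit [DecidableEq ι] in
lemma isState_rank_one (c : ι → ℂ) (n : ℝ) (hn : 0 < n) (hc : star c ⬝ᵥ c = n) :
    IsState (((n⁻¹ : ℝ) : ℂ) • vecMulVec c (star c)) := by
  constructor
  · apply Matrix.PosSemidef.smul (Matrix.posSemidef_vecMulVec_self_star c)
    rw [Complex.zero_le_real]
    positivity
  · rw [Matrix.trace_smul, Matrix.trace_vecMulVec, dotProduct_comm, hc, smul_eq_mul,
      ← Complex.ofReal_mul, inv_mul_cancel₀ hn.ne', Complex.ofReal_one]

/-- If `w* Φ(c c*) w = 0` then `w* A c = 0` for the components `A` of almost all successful runs. -/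
lemma ae_zero {Ω : Type*} [MeasurableSpace Ω] {μ : Measure Ω} {p : Ω → Protocol ι}
    {Φ : Matrix ι ι ℂ →ₗ[ℂ] Matrix ι ι ℂ} {q : ℝ} (hS : Simulates μ p Φ q) (c w : ι → ℂ) (n : ℝ)
    (hn : 0 < n) (hc : star c ⬝ᵥ c = n) (h0 : quad w (Φ (vecMulVec c (star c))) = 0) :
    ∀ᵐ ω ∂μ, ∀ T ∈ ops (p ω), ∀ a, star w ⬝ᵥ (blk T a *ᵥ c) = 0 := by
  set ρ : Matrix ι ι ℂ := ((n⁻¹ : ℝ) : ℂ) • vecMulVec c (star c) with hρ
  have hst : IsState ρ := isState_rank_one c n hn hc
  set f : Matrix (ι × Fin 2) (ι × Fin 2) ℂ → ℝ :=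
    fun T => ∑ a, n⁻¹ * ‖star w ⬝ᵥ (blk T a *ᵥ c)‖ ^ 2 with hf
  have hf0 : ∀ T, 0 ≤ f T := fun T => Finset.sum_nonneg (fun a _ => by positivity)
  have h1 : ∀ ω, quad w ((p ω).output ρ) = ((((ops (p ω)).map f).sum : ℝ) : ℂ) := by
    intro ω
    rw [output_eq, quad_list, List.map_map, ofReal_list_sum, List.map_map]
    congr 1
    apply List.map_congr_left
    intro T _
    simp only [Function.comp, hf]
    rw [Fin.sum_univ_two, Fin.sum_univ_two, quad_add, hρ, quad_conj, quad_conj]
    push_cast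
    rfl
  have h2 : ∫ ω, quad w ((p ω).output ρ) ∂μ = 0 := by
    have hq : (q : ℂ) ≠ 0 := by exact_mod_cast hS.pos.ne'
    have h3 : ∫ ω, quad w ((p ω).output ρ) ∂μ = q * quad w (Φ ρ) := by
      unfold quad
      rw [integral_finsetSum _ (fun i _ => integrable_finsetSum _ (fun j _ =>
        ((hS.integrable ρ hst i j).const_mul _).mul_const _)), Finset.mul_sum]
      apply Finset.sum_congr rfl
      intro i _
      rw [integral_finsetSum _ (fun j _ =>
        ((hS.integrable ρ hst i j).const_mul _).mul_const _), Finset.mul_sum]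
      apply Finset.sum_congr rfl
      intro j _
      rw [integral_mul_const, integral_const_mul, ← hS.state ρ hst i j]
      field_simp
    rw [h3, hρ, map_smul, quad_smul, h0, mul_zero, mul_zero]
  have h4 : Integrable (fun ω => ((ops (p ω)).map f).sum) μ := by
    have h5 : Integrable (fun ω => quad w ((p ω).output ρ)) μ := by
      unfold quad
      exact integrable_finsetSum _ (fun i _ => integrable_finsetSum _ (fun j _ =>
        ((hS.integrable ρ hst i j).const_mul _).mul_const _))
    have h6 := h5.re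
    refine h6.congr (Filter.Eventually.of_forall fun ω => ?_)
    show RCLike.re (quad w ((p ω).output ρ)) = _
    rw [h1 ω]
    exact Complex.ofReal_re _
  have h5 : ∫ ω, ((ops (p ω)).map f).sum ∂μ = 0 := by
    have h6 : ((∫ ω, ((ops (p ω)).map f).sum ∂μ : ℝ) : ℂ) = 0 := by
      rw [← integral_complex_ofReal, ← h2]
      exact integral_congr_ae (Filter.Eventually.of_forall fun ω => (h1 ω).symm)
    exact_mod_cast h6
  have h6 : ∀ ω, 0 ≤ ((ops (p ω)).map f).sum := by
    intro ω
    apply List.sum_nonneg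
    intro y hy
    rw [List.mem_map] at hy
    obtain ⟨T, _, rfl⟩ := hy
    exact hf0 T
  have h7 := (integral_eq_zero_iff_of_nonneg (fun ω => h6 ω) h4).1 h5
  filter_upwards [h7] with ω hω T hT a
  have h8 := list_zero (ops (p ω)) f hf0 hω T hT
  rw [hf] at h8
  have h9 := (Finset.sum_eq_zero_iff_of_nonneg (fun a _ => by positivity)).1 h8 a (Finset.mem_univ a)
  have h10 : ‖star w ⬝ᵥ (blk T a *ᵥ c)‖ ^ 2 = 0 := by
    rcases mul_eq_zero.1 h9 with h | h
    · exact absurd h (inv_ne_zero hn.ne')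
    · exact h
  rwa [sq_eq_zero_iff, norm_eq_zero] at h10

end operators

section signs

variable {r : ℕ}

/-- The sign of a bit. -/
def sg (b : Bool) : ℝ := if b then 1 else -1

lemma sg_sq (b : Bool) : sg b * sg b = 1 := by cases b <;> simp [sg]

lemma sg_not (b : Bool) : sg (!b) = -sg b := by cases b <;> simp [sg]

/-- Changing one sign. -/
def flip (i : Fin r) (s : Fin r → Bool) : Fin r → Bool := Function.update s i (!s i)

lemma flip_flip (i : Fin r) (s : Fin r → Bool) : flip i (flip i s) = s := by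
  unfold flip
  simp

/-- Changing one sign, as a permutation. -/
def flipE (i : Fin r) : (Fin r → Bool) ≃ (Fin r → Bool) :=
  ⟨flip i, flip i, flip_flip i, flip_flip i⟩

/-- The signed sum. -/
noncomputable def ssum (v : Fin r → ℂ) (s : Fin r → Bool) : ℂ := ∑ i, (sg (s i) : ℂ) * v i

lemma ssum_flip (v : Fin r → ℂ) (s : Fin r → Bool) (i : Fin r) :
    ssum v (flip i s) = ssum v s - 2 * ((sg (s i) : ℂ) * v i) := by
  unfold ssum
  rw [← Finset.add_sum_erase _ _ (Finset.mem_univ i), ← Finset.add_sum_erase _ _ (Finset.mem_univ i)]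
  have h1 : ∑ x ∈ Finset.univ.erase i, (sg (flip i s x) : ℂ) * v x =
      ∑ x ∈ Finset.univ.erase i, (sg (s x) : ℂ) * v x := by
    apply Finset.sum_congr rfl
    intro x hx
    rw [flip, Function.update_of_ne (Finset.ne_of_mem_erase hx)]
  rw [h1, flip, Function.update_self, sg_not]
  push_cast
  ring

lemma sum_sg_mul (i j : Fin r) (h : i ≠ j) :
    ∑ s : Fin r → Bool, sg (s i) * sg (s j) = 0 := by
  have h1 : ∑ s : Fin r → Bool, sg (s i) * sg (s j) = ∑ s : Fin r → Bool, -(sg (s i) * sg (s j)) := by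
    rw [← Equiv.sum_comp (flipE i)]
    apply Finset.sum_congr rfl
    intro s _
    show sg (flip i s i) * sg (flip i s j) = _
    rw [flip, Function.update_self, Function.update_of_ne h.symm, sg_not]
    ring
  rw [Finset.sum_neg_distrib] at h1
  linarith

/-- The mean of the squares of the signed sums. -/
lemma sum_ssum_sq (v : Fin r → ℂ) :
    ∑ s : Fin r → Bool, ‖ssum v s‖ ^ 2 = 2 ^ r * ∑ i, ‖v i‖ ^ 2 := by
  have h1 : ((∑ s : Fin r → Bool, ‖ssum v s‖ ^ 2 : ℝ) : ℂ) = ((2 ^ r * ∑ i, ‖v i‖ ^ 2 : ℝ) : ℂ) := by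
    push_cast
    have h2 : ∀ s : Fin r → Bool, ((‖ssum v s‖ : ℂ)) ^ 2 =
        ∑ i, ∑ j, ((sg (s i) * sg (s j) : ℝ) : ℂ) * (v i * star (v j)) := by
      intro s
      have h3 : ((‖ssum v s‖ : ℂ)) ^ 2 = ssum v s * star (ssum v s) := by
        rw [RCLike.star_def, Complex.mul_conj, Complex.normSq_eq_norm_sq]
        push_cast
        rfl
      rw [h3, ssum, star_sum, Finset.sum_mul_sum]
      apply Finset.sum_congr rfl
      intro i _
      apply Finset.sum_congr rfl
      intro j _
      rw [star_mul', RCLike.star_def, Complex.conj_ofReal]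
      push_cast
      ring
    rw [Finset.sum_congr rfl (fun s _ => h2 s), Finset.sum_comm, Finset.mul_sum]
    apply Finset.sum_congr rfl
    intro i _
    rw [Finset.sum_comm, Finset.sum_eq_single i]
    · have h4 : ∀ s : Fin r → Bool, ((sg (s i) * sg (s i) : ℝ) : ℂ) * (v i * star (v i)) =
          ((‖v i‖ : ℂ)) ^ 2 := by
        intro s
        rw [sg_sq, Complex.ofReal_one, one_mul, RCLike.star_def, Complex.mul_conj,
          Complex.normSq_eq_norm_sq]
        push_cast
        rfl
      rw [Finset.sum_congr rfl (fun s _ => h4 s), Finset.sum_const, Finset.card_univ]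
      simp
    · intro j _ hj
      rw [← Finset.sum_mul, ← Complex.ofReal_sum, sum_sg_mul i j hj.symm]
      simp
    · intro h
      exact absurd (Finset.mem_univ i) h
  exact_mod_cast h1

/-- At least half of the signed sums are nonzero. -/
lemma card_ssum (v : Fin r → ℂ) (hv : v ≠ 0) :
    2 ^ r ≤ 2 * (Finset.univ.filter (fun s : Fin r → Bool => ssum v s ≠ 0)).card := by
  obtain ⟨i, hi⟩ := Function.ne_iff.1 hv
  have h1 : (Finset.univ.filter (fun s : Fin r → Bool => ¬ ssum v s ≠ 0)).card ≤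
      (Finset.univ.filter (fun s : Fin r → Bool => ssum v s ≠ 0)).card := by
    apply Finset.card_le_card_of_injOn (flipE i)
    · intro s hs
      rw [Finset.mem_coe, Finset.mem_filter] at hs ⊢
      refine ⟨Finset.mem_univ _, ?_⟩
      show ssum v (flip i s) ≠ 0
      have h2 : ssum v s = 0 := not_not.1 hs.2
      rw [ssum_flip, h2, zero_sub, neg_ne_zero]
      refine mul_ne_zero two_ne_zero (mul_ne_zero ?_ hi)
      intro h
      have h3 := sg_sq (s i)
      have h4 : sg (s i) = 0 := by exact_mod_cast h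
      rw [h4] at h3
      norm_num at h3
    · exact (flipE i).injective.injOn
  have h2 := Finset.card_filter_add_card_filter_not (s := (Finset.univ : Finset (Fin r → Bool)))
    (fun s => ssum v s ≠ 0)
  rw [Finset.card_univ] at h2
  have h3 : Fintype.card (Fin r → Bool) = 2 ^ r := by simp
  omega

/-- The `ℓ¹` norm is at most twice the largest signed sum. -/
lemma l1_le (v : Fin r → ℂ) (C : ℝ) (h : ∀ s, ‖ssum v s‖ ≤ C) : ∑ i, ‖v i‖ ≤ 2 * C := by
  have key : ∀ x : ℝ, sg (decide (0 ≤ x)) * x = |x| := by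
    intro x
    rcases le_or_gt 0 x with hx | hx
    · rw [decide_eq_true hx, abs_of_nonneg hx]; simp [sg]
    · rw [decide_eq_false (not_le.2 hx), abs_of_neg hx]; simp [sg]
  have h1 : ∑ i, |(v i).re| ≤ C := by
    have h2 := h (fun i => decide (0 ≤ (v i).re))
    have h3 : (ssum v (fun i => decide (0 ≤ (v i).re))).re = ∑ i, |(v i).re| := by
      rw [ssum, Complex.re_sum]
      apply Finset.sum_congr rfl
      intro i _
      rw [Complex.re_ofReal_mul, key]
    rw [← h3]
    exact (le_abs_self _).trans ((Complex.abs_re_le_norm _).trans h2)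
  have h4 : ∑ i, |(v i).im| ≤ C := by
    have h2 := h (fun i => decide (0 ≤ (v i).im))
    have h3 : (ssum v (fun i => decide (0 ≤ (v i).im))).im = ∑ i, |(v i).im| := by
      rw [ssum, Complex.im_sum]
      apply Finset.sum_congr rfl
      intro i _
      rw [Complex.im_ofReal_mul, key]
    rw [← h3]
    exact (le_abs_self _).trans ((Complex.abs_im_le_norm _).trans h2)
  calc ∑ i, ‖v i‖ ≤ ∑ i, (|(v i).re| + |(v i).im|) :=
        Finset.sum_le_sum (fun i _ => Complex.norm_le_abs_re_add_abs_im _)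
    _ = ∑ i, |(v i).re| + ∑ i, |(v i).im| := Finset.sum_add_distrib
    _ ≤ 2 * C := by linarith

end signs

section channel

variable {ι : Type} [Fintype ι] [DecidableEq ι] {r : ℕ}

/-- The `2^r` vectors `(±1, …, ±1) / √r` and the `r` coordinate vectors of `ℝ^r`. -/
noncomputable def vec (b : (Fin r → Bool) ⊕ Fin r) (i : Fin r) : ℝ :=
  match b with
  | Sum.inl s => sg (s i) / Real.sqrt r
  | Sum.inr j => if i = j then 1 else 0

lemma vec_norm (hr : 1 ≤ r) (b : (Fin r → Bool) ⊕ Fin r) : ∑ i, vec b i * vec b i = 1 := by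
  have hr' : (0 : ℝ) < r := by exact_mod_cast hr
  cases b with
  | inl s =>
    have h1 : ∀ i, vec (Sum.inl s) i * vec (Sum.inl s) i = 1 / (r : ℝ) := by
      intro i
      show sg (s i) / Real.sqrt r * (sg (s i) / Real.sqrt r) = 1 / r
      rw [div_mul_div_comm, sg_sq, Real.mul_self_sqrt hr'.le]
    rw [Finset.sum_congr rfl (fun i _ => h1 i), Finset.sum_const, Finset.card_univ,
      Fintype.card_fin, nsmul_eq_mul, mul_one_div_cancel hr'.ne']
  | inr j =>
    simp [vec]

/-- The Gram matrix. -/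
noncomputable def gram (b b' : (Fin r → Bool) ⊕ Fin r) : ℝ := ∑ i, vec b i * vec b' i

/-- The channel: the Schur multiplier by the Gram matrix. -/
noncomputable def chan (e : ι ≃ (Fin r → Bool) ⊕ Fin r) : Matrix ι ι ℂ →ₗ[ℂ] Matrix ι ι ℂ where
  toFun X := Matrix.of fun b b' => (gram (e b) (e b') : ℂ) * X b b'
  map_add' X Y := by ext b b'; simp [mul_add]
  map_smul' c X := by ext b b'; simp; ring

omit [Fintype ι] [DecidableEq ι] in
lemma chan_apply (e : ι ≃ (Fin r → Bool) ⊕ Fin r) (X : Matrix ι ι ℂ) (b b' : ι) :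
    chan e X b b' = (gram (e b) (e b') : ℂ) * X b b' := rfl

lemma isChannel (hr : 1 ≤ r) (e : ι ≃ (Fin r → Bool) ⊕ Fin r) : IsChannel (chan e) := by
  constructor
  · intro X
    rw [Matrix.trace, Matrix.trace]
    apply Finset.sum_congr rfl
    intro b _
    rw [Matrix.diag_apply, Matrix.diag_apply, chan_apply, gram, vec_norm hr]
    simp
  · intro k X hX
    have h1 : (Matrix.of fun x y : Fin k × ι =>
        chan e (Matrix.of fun i j => X (x.1, i) (y.1, j)) x.2 y.2) =
        ∑ i, (Matrix.diagonal fun x : Fin k × ι => (vec (e x.2) i : ℂ)) * X *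
          (Matrix.diagonal fun x : Fin k × ι => (vec (e x.2) i : ℂ))ᴴ := by
      ext x y
      rw [Matrix.of_apply, chan_apply, Matrix.of_apply, Matrix.sum_apply, gram]
      push_cast
      rw [Finset.sum_mul]
      apply Finset.sum_congr rfl
      intro i _
      rw [Matrix.diagonal_conjTranspose, Matrix.mul_diagonal, Matrix.diagonal_mul, Pi.star_apply,
        RCLike.star_def, Complex.conj_ofReal]
      ring
    rw [h1]
    exact Matrix.posSemidef_sum _ (fun i _ => hX.mul_mul_conjTranspose_same _)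

omit [DecidableEq ι] in
/-- The quadratic form of the output of the channel vanishes on relations between the vectors. -/
lemma quad_chan (e : ι ≃ (Fin r → Bool) ⊕ Fin r) (w c : ι → ℂ)
    (h : ∀ i, ∑ b, star (w b) * c b * (vec (e b) i : ℂ) = 0) :
    quad w (chan e (vecMulVec c (star c))) = 0 := by
  have h1 : quad w (chan e (vecMulVec c (star c))) =
      ∑ i, (∑ b, star (w b) * c b * (vec (e b) i : ℂ)) *
        (∑ b, w b * star (c b) * (vec (e b) i : ℂ)) := by
    have h2 : ∀ x y : ι, star (w x) * chan e (vecMulVec c (star c)) x y * w y =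
        ∑ i, star (w x) * c x * (vec (e x) i : ℂ) * (w y * star (c y) * (vec (e y) i : ℂ)) := by
      intro x y
      rw [chan_apply, Matrix.vecMulVec_apply, gram]
      push_cast
      rw [Finset.sum_mul, Finset.mul_sum, Finset.sum_mul]
      apply Finset.sum_congr rfl
      intro i _
      rw [Pi.star_apply]
      ring
    calc quad w (chan e (vecMulVec c (star c)))
        = ∑ x, ∑ y, ∑ i, star (w x) * c x * (vec (e x) i : ℂ) *
            (w y * star (c y) * (vec (e y) i : ℂ)) := by
          unfold quad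
          exact Finset.sum_congr rfl (fun x _ => Finset.sum_congr rfl (fun y _ => h2 x y))
      _ = ∑ x, ∑ i, ∑ y, star (w x) * c x * (vec (e x) i : ℂ) *
            (w y * star (c y) * (vec (e y) i : ℂ)) :=
          Finset.sum_congr rfl (fun x _ => Finset.sum_comm)
      _ = ∑ i, ∑ x, ∑ y, star (w x) * c x * (vec (e x) i : ℂ) *
            (w y * star (c y) * (vec (e y) i : ℂ)) := Finset.sum_comm
      _ = _ := Finset.sum_congr rfl (fun i _ => by rw [Finset.sum_mul_sum])
  rw [h1]
  apply Finset.sum_eq_zero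
  intro i _
  rw [h i, zero_mul]

/-- The vector `c` that expresses that `u_s - ∑ ± e_i / √r = 0`. -/
noncomputable def rel (e : ι ≃ (Fin r → Bool) ⊕ Fin r) (s : Fin r → Bool) (b : ι) : ℂ :=
  match e b with
  | Sum.inl s' => if s' = s then 1 else 0
  | Sum.inr i => ((-(sg (s i) / Real.sqrt r) : ℝ) : ℂ)

omit [DecidableEq ι] in
lemma sum_e (e : ι ≃ (Fin r → Bool) ⊕ Fin r) (f : ι → ℂ) :
    ∑ b, f b = ∑ s, f (e.symm (Sum.inl s)) + ∑ i, f (e.symm (Sum.inr i)) := by
  rw [← Equiv.sum_comp e.symm, Fintype.sum_sum_type]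

omit [DecidableEq ι] in
lemma sum_e_real (e : ι ≃ (Fin r → Bool) ⊕ Fin r) (f : ι → ℝ) :
    ∑ b, f b = ∑ s, f (e.symm (Sum.inl s)) + ∑ i, f (e.symm (Sum.inr i)) := by
  rw [← Equiv.sum_comp e.symm, Fintype.sum_sum_type]

omit [Fintype ι] [DecidableEq ι] in
lemma rel_inl (e : ι ≃ (Fin r → Bool) ⊕ Fin r) (s s' : Fin r → Bool) :
    rel e s (e.symm (Sum.inl s')) = if s' = s then 1 else 0 := by
  unfold rel
  rw [Equiv.apply_symm_apply]

omit [Fintype ι] [DecidableEq ι] in
lemma rel_inr (e : ι ≃ (Fin r → Bool) ⊕ Fin r) (s : Fin r → Bool) (i : Fin r) :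
    rel e s (e.symm (Sum.inr i)) = ((-(sg (s i) / Real.sqrt r) : ℝ) : ℂ) := by
  unfold rel
  rw [Equiv.apply_symm_apply]

omit [DecidableEq ι] in
lemma rel_norm (hr : 1 ≤ r) (e : ι ≃ (Fin r → Bool) ⊕ Fin r) (s : Fin r → Bool) :
    star (rel e s) ⬝ᵥ rel e s = ((2 : ℝ) : ℂ) := by
  have hr' : (0 : ℝ) < r := by exact_mod_cast hr
  rw [dotProduct, sum_e e]
  simp only [Pi.star_apply, rel_inl, rel_inr]
  have h1 : ∀ i : Fin r, star ((-(sg (s i) / Real.sqrt r) : ℝ) : ℂ) *
      ((-(sg (s i) / Real.sqrt r) : ℝ) : ℂ) = ((1 / (r : ℝ) : ℝ) : ℂ) := by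
    intro i
    rw [RCLike.star_def, Complex.conj_ofReal, ← Complex.ofReal_mul, neg_mul_neg,
      div_mul_div_comm, sg_sq, Real.mul_self_sqrt hr'.le]
  rw [Finset.sum_congr rfl (fun i _ => h1 i), Finset.sum_const, Finset.card_univ, Fintype.card_fin,
    nsmul_eq_mul]
  have h2 : ∑ x : Fin r → Bool, star (if x = s then (1 : ℂ) else 0) * (if x = s then 1 else 0) =
      1 := by
    rw [Finset.sum_eq_single s]
    · simp
    · intro b _ hb
      simp [hb]
    · intro h
      exact absurd (Finset.mem_univ s) h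
  rw [h2]
  have h3 : (r : ℂ) * ((1 / (r : ℝ) : ℝ) : ℂ) = 1 := by
    have : (r : ℝ) * (1 / (r : ℝ)) = 1 := mul_one_div_cancel hr'.ne'
    exact_mod_cast congrArg (fun x : ℝ => (x : ℂ)) this
  rw [h3]
  norm_num

omit [DecidableEq ι] in
lemma rel_zero (e : ι ≃ (Fin r → Bool) ⊕ Fin r) (s : Fin r → Bool) (i : Fin r) :
    ∑ b, rel e s b * (vec (e b) i : ℂ) = 0 := by
  rw [sum_e e]
  simp only [rel_inl, rel_inr, Equiv.apply_symm_apply]
  rw [Finset.sum_eq_single s (fun b _ hb => by simp [hb]) (fun h => absurd (Finset.mem_univ s) h),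
    Finset.sum_eq_single i (fun b _ hb => by simp [vec, hb.symm])
      (fun h => absurd (Finset.mem_univ i) h)]
  simp [vec]

/-- Almost all successful runs have components that are diagonal with the entries `⟨u_b, v⟩`. -/
lemma ae_form (hr : 1 ≤ r) (e : ι ≃ (Fin r → Bool) ⊕ Fin r) {Ω : Type*} [MeasurableSpace Ω]
    {μ : Measure Ω} {p : Ω → Protocol ι} {q : ℝ} (hS : Simulates μ p (chan e) q) :
    ∀ᵐ ω ∂μ, ∀ T ∈ ops (p ω), ∀ a, (∀ i b, i ≠ b → blk T a i b = 0) ∧
      ∀ s, blk T a (e.symm (Sum.inl s)) (e.symm (Sum.inl s)) =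
        ssum (fun i => blk T a (e.symm (Sum.inr i)) (e.symm (Sum.inr i))) s / Real.sqrt r := by
  have h1 : ∀ᵐ ω ∂μ, ∀ i b, i ≠ b → ∀ T ∈ ops (p ω), ∀ a, blk T a i b = 0 := by
    rw [ae_all_iff]
    intro i
    rw [ae_all_iff]
    intro b
    rw [Filter.eventually_imp_distrib_left]
    intro hib
    have h2 := ae_zero hS (Pi.single b 1) (Pi.single i 1) 1 one_pos (by simp) (by
      apply quad_chan
      intro j
      apply Finset.sum_eq_zero
      intro x _
      by_cases hx : x = i
      · subst hx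
        rw [Pi.single_apply b, if_neg hib]
        simp
      · rw [Pi.single_apply i, if_neg hx]
        simp)
    filter_upwards [h2] with ω hω T hT a
    have h3 := hω T hT a
    rw [Matrix.mulVec_single_one, ← Pi.single_star, star_one, single_one_dotProduct] at h3
    exact h3
  have h4 : ∀ᵐ ω ∂μ, ∀ s, ∀ T ∈ ops (p ω), ∀ a,
      star (fun _ : ι => (1 : ℂ)) ⬝ᵥ (blk T a *ᵥ rel e s) = 0 := by
    rw [ae_all_iff]
    intro s
    apply ae_zero hS (rel e s) (fun _ => 1) 2 two_pos (rel_norm hr e s)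
    apply quad_chan
    intro i
    rw [← rel_zero e s i]
    apply Finset.sum_congr rfl
    intro b _
    rw [star_one, one_mul]
  filter_upwards [h1, h4] with ω h5 h6 T hT a
  refine ⟨fun i b hib => h5 i b hib T hT a, fun s => ?_⟩
  have h7 := h6 s T hT a
  have h8 : star (fun _ : ι => (1 : ℂ)) ⬝ᵥ (blk T a *ᵥ rel e s) = ∑ b, blk T a b b * rel e s b := by
    rw [dotProduct]
    apply Finset.sum_congr rfl
    intro b _
    rw [Pi.star_apply, star_one, one_mul, Matrix.mulVec, dotProduct, Finset.sum_eq_single b]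
    · intro j _ hj
      rw [h5 b j hj.symm T hT a, zero_mul]
    · intro h
      exact absurd (Finset.mem_univ b) h
  rw [h8, sum_e e] at h7
  simp only [rel_inl, rel_inr] at h7
  rw [Finset.sum_eq_single s (fun b _ hb => by simp [hb]) (fun h => absurd (Finset.mem_univ s) h),
    if_pos rfl, mul_one] at h7
  rw [eq_neg_of_add_eq_zero_left h7, ← Finset.sum_neg_distrib, ssum, Finset.sum_div]
  apply Finset.sum_congr rfl
  intro i _
  push_cast
  ring

end channel

section bound

variable {ι : Type} [Fintype ι] [DecidableEq ι] {r : ℕ}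

lemma blk_entry_le {T : Matrix (ι × Fin 2) (ι × Fin 2) ℂ} (hT : Contr T) (a : Fin 2) (i b : ι) :
    ‖blk T a i b‖ ≤ 1 := by
  have h1 := hT (Pi.single (b, 0) 1)
  rw [Matrix.mulVec_single_one] at h1
  have h2 : ∑ j : ι × Fin 2, ‖(Pi.single (b, 0) (1 : ℂ) : ι × Fin 2 → ℂ) j‖ ^ 2 = 1 := by
    rw [Finset.sum_eq_single ((b, 0) : ι × Fin 2)]
    · simp
    · intro j _ hj
      rw [Pi.single_eq_of_ne hj]
      simp
    · intro h
      exact absurd (Finset.mem_univ _) h
  rw [h2] at h1
  have h3 : ‖T (i, a) (b, 0)‖ ^ 2 ≤ 1 :=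
    (Finset.single_le_sum (f := fun j : ι × Fin 2 => ‖T.col (b, 0) j‖ ^ 2)
      (fun j _ => by positivity) (Finset.mem_univ (i, a))).trans h1
  have h4 : 0 ≤ ‖T (i, a) (b, 0)‖ := norm_nonneg _
  show ‖T (i, a) (b, 0)‖ ≤ 1
  nlinarith

/-- The component `a` of `T` has the form of an element of the Kraus space. -/
def Form (e : ι ≃ (Fin r → Bool) ⊕ Fin r) (T : Matrix (ι × Fin 2) (ι × Fin 2) ℂ) (a : Fin 2) :
    Prop :=
  (∀ i b, i ≠ b → blk T a i b = 0) ∧
    ∀ s, blk T a (e.symm (Sum.inl s)) (e.symm (Sum.inl s)) =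
      ssum (fun i => blk T a (e.symm (Sum.inr i)) (e.symm (Sum.inr i))) s / Real.sqrt r

/-- The coordinates of an element of the Kraus space. -/
def crd (e : ι ≃ (Fin r → Bool) ⊕ Fin r) (T : Matrix (ι × Fin 2) (ι × Fin 2) ℂ) (a : Fin 2) :
    Fin r → ℂ := fun i => blk T a (e.symm (Sum.inr i)) (e.symm (Sum.inr i))

omit [DecidableEq ι] in
lemma hs_norm (hr : 1 ≤ r) (e : ι ≃ (Fin r → Bool) ⊕ Fin r)
    {T : Matrix (ι × Fin 2) (ι × Fin 2) ℂ} {a : Fin 2} (hF : Form e T a) :
    ∑ i, ∑ b, ‖blk T a i b‖ ^ 2 = (Fintype.card ι : ℝ) / r * ∑ i, ‖crd e T a i‖ ^ 2 := by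
  have hr' : (0 : ℝ) < r := by exact_mod_cast hr
  have h1 : ∀ i, ∑ b, ‖blk T a i b‖ ^ 2 = ‖blk T a i i‖ ^ 2 := by
    intro i
    rw [Finset.sum_eq_single i]
    · intro b _ hb
      rw [hF.1 i b hb.symm]
      simp
    · intro h
      exact absurd (Finset.mem_univ _) h
  rw [Finset.sum_congr rfl (fun i _ => h1 i), sum_e_real e]
  have h2 : ∀ s, ‖blk T a (e.symm (Sum.inl s)) (e.symm (Sum.inl s))‖ ^ 2 =
      1 / r * ‖ssum (crd e T a) s‖ ^ 2 := by
    intro s
    rw [hF.2 s, norm_div, Complex.norm_real, Real.norm_eq_abs, abs_of_nonneg (Real.sqrt_nonneg _),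
      div_pow, Real.sq_sqrt hr'.le]
    show _ / _ = _
    rw [one_div, inv_mul_eq_div]
    rfl
  rw [Finset.sum_congr rfl (fun s _ => h2 s), ← Finset.mul_sum, sum_ssum_sq]
  have h3 : (Fintype.card ι : ℝ) = 2 ^ r + r := by
    rw [Fintype.card_congr e, Fintype.card_sum, Fintype.card_fin]
    simp
  rw [h3]
  show 1 / (r : ℝ) * (2 ^ r * ∑ i, ‖crd e T a i‖ ^ 2) + ∑ i, ‖crd e T a i‖ ^ 2 = _
  field_simp

lemma crd_le (hr : 1 ≤ r) (e : ι ≃ (Fin r → Bool) ⊕ Fin r)
    {T : Matrix (ι × Fin 2) (ι × Fin 2) ℂ} {a : Fin 2} (hT : Contr T) (hF : Form e T a) :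
    ∑ i, ‖crd e T a i‖ ^ 2 ≤ 2 * Real.sqrt r := by
  have hr' : (0 : ℝ) < r := by exact_mod_cast hr
  have h1 : ∀ s, ‖ssum (crd e T a) s‖ ≤ Real.sqrt r := by
    intro s
    have h2 := blk_entry_le hT a (e.symm (Sum.inl s)) (e.symm (Sum.inl s))
    rw [hF.2 s, norm_div, Complex.norm_real, Real.norm_eq_abs, abs_of_nonneg (Real.sqrt_nonneg _),
      div_le_one (Real.sqrt_pos.2 hr')] at h2
    exact h2
  refine le_trans (Finset.sum_le_sum fun i _ => ?_) (l1_le _ _ h1)
  have h2 : ‖crd e T a i‖ ≤ 1 := blk_entry_le hT a _ _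
  have h3 : 0 ≤ ‖crd e T a i‖ := norm_nonneg _
  nlinarith

lemma rank_ge (hr : 1 ≤ r) (e : ι ≃ (Fin r → Bool) ⊕ Fin r)
    {T : Matrix (ι × Fin 2) (ι × Fin 2) ℂ} {a : Fin 2} (hF : Form e T a) (hv : crd e T a ≠ 0) :
    2 ^ (r - 1) ≤ T.rank := by
  classical
  have hr' : (0 : ℝ) < r := by exact_mod_cast hr
  have h1 : (blk T a).rank ≤ T.rank := Matrix.rank_submatrix_le _ _ _
  refine le_trans ?_ h1
  have h2 : blk T a = Matrix.diagonal (fun b => blk T a b b) := by
    ext i b
    by_cases h : i = b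
    · subst h
      rw [Matrix.diagonal_apply_eq]
    · rw [Matrix.diagonal_apply_ne _ h, hF.1 i b h]
  rw [h2, Matrix.rank_diagonal]
  have h3 := card_ssum (crd e T a) hv
  have h4 : (Finset.univ.filter (fun s : Fin r → Bool => ssum (crd e T a) s ≠ 0)).card ≤
      Fintype.card {b // blk T a b b ≠ 0} := by
    rw [Fintype.card_subtype]
    apply Finset.card_le_card_of_injOn (fun s => e.symm (Sum.inl s))
    · intro s hs
      rw [Finset.mem_coe, Finset.mem_filter] at hs ⊢
      refine ⟨Finset.mem_univ _, ?_⟩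
      rw [hF.2 s]
      refine div_ne_zero hs.2 ?_
      exact_mod_cast (Real.sqrt_pos.2 hr').ne'
    · intro s _ s' _ h
      exact Sum.inl_injective (e.symm.injective h)
  have h5 : 2 * 2 ^ (r - 1) = 2 ^ r := by
    rw [← pow_succ']
    congr 1
    omega
  omega

lemma list_bound {α : Type*} (l : List α) (g : α → ℝ) (P : α → Bool) (C : ℝ)
    (h : ∀ x ∈ l, g x ≤ if P x then C else 0) : (l.map g).sum ≤ (l.countP P : ℝ) * C := by
  induction l with
  | nil => simp
  | cons x l ih =>
    have h1 := ih (fun y hy => h y (List.mem_cons_of_mem _ hy))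
    have h2 := h x (List.mem_cons_self)
    rw [List.map_cons, List.sum_cons, List.countP_cons]
    push_cast
    split_ifs at h2 ⊢
    · linarith
    · linarith

/-- The contribution of a successful run to the average of the success probability. -/
noncomputable def contrib (T : Matrix (ι × Fin 2) (ι × Fin 2) ℂ) : ℝ :=
  (Fintype.card ι : ℝ)⁻¹ * ∑ a, ∑ i, ∑ b, ‖blk T a i b‖ ^ 2

lemma trace_output (p : Protocol ι) :
    (p.output ((((Fintype.card ι : ℝ)⁻¹ : ℝ) : ℂ) • (1 : Matrix ι ι ℂ))).trace =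
      ((((ops p).map contrib).sum : ℝ) : ℂ) := by
  have h1 : ∀ A : Matrix ι ι ℂ, (A * ((((Fintype.card ι : ℝ)⁻¹ : ℝ) : ℂ) • (1 : Matrix ι ι ℂ)) *
      Aᴴ).trace = (((Fintype.card ι : ℝ)⁻¹ * ∑ i, ∑ b, ‖A i b‖ ^ 2 : ℝ) : ℂ) := by
    intro A
    rw [Matrix.mul_smul, Matrix.mul_one, Matrix.smul_mul, Matrix.trace_smul, smul_eq_mul,
      Complex.ofReal_mul]
    congr 1
    rw [Matrix.trace]
    push_cast
    apply Finset.sum_congr rfl
    intro i _
    rw [Matrix.diag_apply, Matrix.mul_apply]
    apply Finset.sum_congr rfl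
    intro b _
    rw [Matrix.conjTranspose_apply, RCLike.star_def, Complex.mul_conj, Complex.normSq_eq_norm_sq]
    push_cast
    rfl
  have h2 : ∀ l : List (Matrix ι ι ℂ), l.sum.trace = (l.map Matrix.trace).sum := by
    intro l
    induction l with
    | nil => simp
    | cons A l ih => rw [List.sum_cons, List.map_cons, List.sum_cons, Matrix.trace_add, ih]
  rw [output_eq, h2, List.map_map, ofReal_list_sum, List.map_map]
  congr 1
  apply List.map_congr_left
  intro T _
  simp only [Function.comp, contrib]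
  rw [Matrix.trace_sum, Finset.sum_congr rfl (fun a _ => h1 (blk T a)), Finset.mul_sum]
  push_cast
  rfl

theorem success_le (hr : 1 ≤ r) (e : ι ≃ (Fin r → Bool) ⊕ Fin r) (R : ℕ) {Ω : Type*}
    [MeasurableSpace Ω] {μ : Measure Ω} [IsProbabilityMeasure μ] {p : Ω → Protocol ι} {q : ℝ}
    (hR : ∀ ω, (p ω).rounds ≤ R) (hS : Simulates μ p (chan e) q) :
    q ≤ 4 * 8 ^ R / Real.sqrt r := by
  have hr' : (0 : ℝ) < r := by exact_mod_cast hr
  have hsr : 0 < Real.sqrt r := Real.sqrt_pos.2 hr'
  have hcard : (Fintype.card ι : ℝ) = 2 ^ r + r := by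
    rw [Fintype.card_congr e, Fintype.card_sum, Fintype.card_fin]
    simp
  have hcardN : Fintype.card ι = 2 ^ r + r := by exact_mod_cast hcard
  have hc0 : (0 : ℝ) < Fintype.card ι := by rw [hcard]; positivity
  have h2r : 2 * 2 ^ (r - 1) = 2 ^ r := by
    rw [← pow_succ']
    congr 1
    omega
  have hst : IsState ((((Fintype.card ι : ℝ)⁻¹ : ℝ) : ℂ) • (1 : Matrix ι ι ℂ)) := by
    constructor
    · apply Matrix.PosSemidef.smul Matrix.PosSemidef.one
      rw [Complex.zero_le_real]
      positivity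
    · rw [Matrix.trace_smul, Matrix.trace_one, smul_eq_mul]
      have : (Fintype.card ι : ℝ)⁻¹ * (Fintype.card ι : ℝ) = 1 := inv_mul_cancel₀ hc0.ne'
      exact_mod_cast congrArg (fun x : ℝ => (x : ℂ)) this
  have hbound : ∀ᵐ ω ∂μ, ‖((p ω).output
      ((((Fintype.card ι : ℝ)⁻¹ : ℝ) : ℂ) • (1 : Matrix ι ι ℂ))).trace‖ ≤
        4 * 8 ^ R / Real.sqrt r := by
    filter_upwards [ae_form hr e hS] with ω hω
    rw [trace_output, Complex.norm_real, Real.norm_eq_abs, abs_of_nonneg]
    · have h1 : ∀ T ∈ ops (p ω), contrib T ≤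
          if decide (2 ^ (r - 1) ≤ T.rank) then 4 / Real.sqrt r else 0 := by
        intro T hT
        have hF : ∀ a, Form e T a := fun a => hω T hT a
        have hC : Contr T := contr_ops _ T hT
        have h2 : ∀ a, ∑ i, ∑ b, ‖blk T a i b‖ ^ 2 ≤ (Fintype.card ι : ℝ) * (2 / Real.sqrt r) := by
          intro a
          rw [hs_norm hr e (hF a)]
          calc (Fintype.card ι : ℝ) / r * ∑ i, ‖crd e T a i‖ ^ 2
              ≤ (Fintype.card ι : ℝ) / r * (2 * Real.sqrt r) :=
                mul_le_mul_of_nonneg_left (crd_le hr e hC (hF a)) (by positivity)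
            _ = (Fintype.card ι : ℝ) * (2 / Real.sqrt r) := by
                have h3 : Real.sqrt r * Real.sqrt r = r := Real.mul_self_sqrt hr'.le
                field_simp
                nlinarith
        by_cases h3 : ∃ a, crd e T a ≠ 0
        · obtain ⟨a, ha⟩ := h3
          rw [decide_eq_true (rank_ge hr e (hF a) ha), if_pos rfl, contrib, Fin.sum_univ_two]
          calc (Fintype.card ι : ℝ)⁻¹ * (∑ i, ∑ b, ‖blk T 0 i b‖ ^ 2 + ∑ i, ∑ b, ‖blk T 1 i b‖ ^ 2)
              ≤ (Fintype.card ι : ℝ)⁻¹ * ((Fintype.card ι : ℝ) * (2 / Real.sqrt r) +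
                (Fintype.card ι : ℝ) * (2 / Real.sqrt r)) :=
                mul_le_mul_of_nonneg_left (add_le_add (h2 0) (h2 1)) (by positivity)
            _ = 4 / Real.sqrt r := by
                field_simp
                ring
        · push Not at h3
          have h4 : contrib T = 0 := by
            rw [contrib, Finset.sum_congr rfl (fun a _ => hs_norm hr e (hF a))]
            simp [h3]
          rw [h4]
          split_ifs
          · positivity
          · exact le_rfl
      refine (list_bound _ _ _ _ h1).trans ?_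
      have h5 : (ops (p ω)).countP (fun T => decide (2 ^ (r - 1) ≤ T.rank)) ≤ 8 ^ R := by
        refine (count_ops (p ω) (2 ^ (r - 1)) 8 Nat.one_le_two_pow ?_ (by norm_num)).trans
          (Nat.pow_le_pow_right (by norm_num) (hR ω))
        rw [Fintype.card_prod, Fintype.card_fin, hcardN]
        have := (Nat.lt_two_pow_self (n := r)).le
        omega
      have h6 : ((ops (p ω)).countP (fun T => decide (2 ^ (r - 1) ≤ T.rank)) : ℝ) ≤ 8 ^ R := by
        exact_mod_cast h5
      calc _ ≤ (8 : ℝ) ^ R * (4 / Real.sqrt r) := mul_le_mul_of_nonneg_right h6 (by positivity)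
        _ = 4 * 8 ^ R / Real.sqrt r := by ring
    · apply List.sum_nonneg
      intro y hy
      rw [List.mem_map] at hy
      obtain ⟨T, _, rfl⟩ := hy
      unfold contrib
      positivity
  have h7 := norm_integral_le_of_norm_le_const hbound
  rw [hS.prob _ hst, Complex.norm_real, Real.norm_eq_abs, abs_of_pos hS.pos] at h7
  simpa using h7

end bound

universe u

/-- **Adaptive protocols with one ancilla qubit and a bounded number of rounds cannot simulate all
channels with a success probability bounded from below.** For every `r ≥ 1` there is a channel on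
`ℂ^d`, `d = 2^r + r`, such that every protocol with at most `R` rounds that simulates it has success
probability at most `4 * 8^R / √r`. So there are no constants `c > 0` and `R` such that every channel
can be simulated by a protocol with one ancilla qubit and at most `R` rounds with success probability
at least `c`. -/
theorem result :
    (∀ r : ℕ, 1 ≤ r →
      ∃ Φ : Matrix (Fin (2 ^ r + r)) (Fin (2 ^ r + r)) ℂ →ₗ[ℂ]
          Matrix (Fin (2 ^ r + r)) (Fin (2 ^ r + r)) ℂ, IsChannel Φ ∧
        ∀ (R : ℕ) (Ω : Type u) [MeasurableSpace Ω] (μ : Measure Ω) [IsProbabilityMeasure μ]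
          (p : Ω → Protocol (Fin (2 ^ r + r))) (q : ℝ), (∀ ω, (p ω).rounds ≤ R) →
          Simulates μ p Φ q → q ≤ 4 * 8 ^ R / Real.sqrt r) ∧
    ¬ ∃ (c : ℝ) (R : ℕ), 0 < c ∧ ∀ d : ℕ, 2 ≤ d →
      ∀ Φ : Matrix (Fin d) (Fin d) ℂ →ₗ[ℂ] Matrix (Fin d) (Fin d) ℂ, IsChannel Φ →
        ∃ (Ω : Type u) (_ : MeasurableSpace Ω) (μ : Measure Ω) (_ : IsProbabilityMeasure μ)
          (p : Ω → Protocol (Fin d)) (q : ℝ), (∀ ω, (p ω).rounds ≤ R) ∧ c ≤ q ∧
            Simulates μ p Φ q := by
  have key : ∀ r : ℕ, 1 ≤ r →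
      ∃ Φ : Matrix (Fin (2 ^ r + r)) (Fin (2 ^ r + r)) ℂ →ₗ[ℂ]
          Matrix (Fin (2 ^ r + r)) (Fin (2 ^ r + r)) ℂ, IsChannel Φ ∧
        ∀ (R : ℕ) (Ω : Type u) [MeasurableSpace Ω] (μ : Measure Ω) [IsProbabilityMeasure μ]
          (p : Ω → Protocol (Fin (2 ^ r + r))) (q : ℝ), (∀ ω, (p ω).rounds ≤ R) →
          Simulates μ p Φ q → q ≤ 4 * 8 ^ R / Real.sqrt r := by
    intro r hr
    have e : Fin (2 ^ r + r) ≃ (Fin r → Bool) ⊕ Fin r :=
      Fintype.equivOfCardEq (by simp)
    exact ⟨chan e, isChannel hr e, fun R Ω _ μ _ p q hR hS => success_le hr e R hR hS⟩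
  refine ⟨key, ?_⟩
  rintro ⟨c, R, hc, h⟩
  obtain ⟨r, hr⟩ := exists_nat_gt ((4 * 8 ^ R / c) ^ 2)
  have hr0 : (0 : ℝ) < r := lt_of_le_of_lt (by positivity) hr
  have hr1 : 1 ≤ r := by exact_mod_cast hr0
  obtain ⟨Φ, hΦ, hb⟩ := key r hr1
  have hd : 2 ≤ 2 ^ r + r := by
    have := (Nat.lt_two_pow_self (n := r)).le
    have : 1 ≤ 2 ^ r := Nat.one_le_two_pow
    omega
  obtain ⟨Ω, _, μ, _, p, q, hR, hcq, hS⟩ := h _ hd Φ hΦ
  have h1 := hb R Ω μ p q hR hS
  have hsr : 0 < Real.sqrt r := Real.sqrt_pos.2 hr0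
  have h2 : 4 * 8 ^ R / c < Real.sqrt r := by
    rw [← Real.sqrt_sq (show (0 : ℝ) ≤ 4 * 8 ^ R / c by positivity)]
    exact Real.sqrt_lt_sqrt (by positivity) hr
  rw [div_lt_iff₀ hc] at h2
  have h3 : c ≤ 4 * 8 ^ R / Real.sqrt r := hcq.trans h1
  rw [le_div_iff₀ hsr] at h3
  linarith

end Pool.Agent.Results.MP_796113_mp.NoConstantRounds
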